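import Mathlib

/-!
# MP_7e344a_al: M12, words with one variable, mixed identity free groups
-/

set_option autoImplicit false

namespace Pool.Agent.Lib.MP_7e344a_al

/-- The retraction `A * ⟨x⟩ → A`, `x ↦ t`. -/
def retr {A : Type} [Group A] (t : A) : Monoid.Coprod A (Multiplicative ℤ) →* A :=
  Monoid.Coprod.lift (MonoidHom.id A) (zpowersHom A t)

/-- `A` is mixed identity free (for finite sets of words). -/
def MIF (A : Type) [Group A] : Prop :=
  ∀ F : Finset (Monoid.Coprod A (Multiplicative ℤ)), 1 ∉ F → ∃ t : A, ∀ f ∈ F, retr t f ≠ 1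

/-- the value of the word `c x^n₁ c₁ x^n₂ c₂ ⋯` at `x = t` -/
def evw {A : Type} [Group A] (t : A) : A → List (ℤ × A) → A
  | c, [] => c
  | c, (n, d) :: l => c * t ^ n * evw t d l

/-- reduced words -/
def RedL {A : Type} [Group A] (l : List (ℤ × A)) : Prop :=
  (∀ p ∈ l, p.1 ≠ 0) ∧ ∀ p ∈ l.dropLast, p.2 ≠ 1

/-- the element of `A * ⟨x⟩` given by a word -/
def wrdM {A : Type} [Group A] : A → List (ℤ × A) → Monoid.Coprod A (Multiplicative ℤ)
  | c, [] => Monoid.Coprod.inl c
  | c, (n, d) :: l => Monoid.Coprod.inl c * Monoid.Coprod.inr (Multiplicative.ofAdd n) * wrdM d l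

theorem retr_wrdM {A : Type} [Group A] (t : A) (l : List (ℤ × A)) : ∀ c : A,
    retr t (wrdM c l) = evw t c l := by
  induction l with
  | nil => intro c; simp [wrdM, evw, retr]
  | cons p l ih =>
    obtain ⟨n, d⟩ := p
    intro c
    simp only [wrdM, evw, map_mul, ih]
    simp [retr]

theorem RedL.tailM {A : Type} [Group A] {p : ℤ × A} {l : List (ℤ × A)} (h : RedL (p :: l)) :
    RedL l := by
  refine ⟨fun q hq => h.1 q (List.mem_cons_of_mem _ hq), fun q hq => h.2 q ?_⟩
  cases l with
  | nil => simp at hq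
  | cons q' l' =>
    rw [List.dropLast_cons_cons]
    exact List.mem_cons_of_mem _ hq

theorem RedL.consM {A : Type} [Group A] {n : ℤ} {c : A} {l : List (ℤ × A)} (h : RedL l)
    (hn : n ≠ 0) (hc : l = [] ∨ c ≠ 1) : RedL ((n, c) :: l) := by
  refine ⟨?_, ?_⟩
  · intro q hq
    rcases List.mem_cons.1 hq with rfl | hq
    · exact hn
    · exact h.1 q hq
  · intro q hq
    cases l with
    | nil => simp at hq
    | cons q' l' =>
      rw [List.dropLast_cons_cons] at hq
      rcases List.mem_cons.1 hq with rfl | hq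
      · rcases hc with hc | hc
        · simp at hc
        · exact hc
      · exact h.2 q hq

theorem RedL.headM {A : Type} [Group A] {n : ℤ} {c : A} {l : List (ℤ × A)}
    (h : RedL ((n, c) :: l)) : l = [] ∨ c ≠ 1 := by
  cases l with
  | nil => left; rfl
  | cons q' l' =>
    right
    exact h.2 (n, c) (by rw [List.dropLast_cons_cons]; exact List.mem_cons_self)

theorem wrdM_inr {A : Type} [Group A] (k : ℤ) (c : A) (l : List (ℤ × A)) (hl : RedL l) :
    ∃ (c' : A) (l' : List (ℤ × A)), RedL l' ∧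
      Monoid.Coprod.inr (Multiplicative.ofAdd k) * wrdM c l = wrdM c' l' := by
  by_cases hk : k = 0
  · subst hk
    refine ⟨c, l, hl, ?_⟩
    simp
  by_cases hc : l = [] ∨ c ≠ 1
  · refine ⟨1, (k, c) :: l, hl.consM hk hc, ?_⟩
    simp [wrdM]
  · push Not at hc
    obtain ⟨hl0, rfl⟩ := hc
    cases l with
    | nil => exact absurd rfl hl0
    | cons p l =>
      obtain ⟨m, d⟩ := p
      by_cases hkm : k + m = 0
      · refine ⟨d, l, hl.tailM, ?_⟩
        simp only [wrdM, map_one, one_mul]
        rw [← mul_assoc, ← map_mul, ← ofAdd_add, hkm]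
        simp
      · refine ⟨1, (k + m, d) :: l, hl.tailM.consM hkm hl.headM, ?_⟩
        simp only [wrdM, map_one, one_mul]
        rw [← mul_assoc, ← map_mul, ← ofAdd_add]

theorem exists_wrdM {A : Type} [Group A] (f : Monoid.Coprod A (Multiplicative ℤ)) :
    ∃ (c : A) (l : List (ℤ × A)), RedL l ∧ f = wrdM c l := by
  induction f using Monoid.Coprod.induction_on' with
  | one => exact ⟨1, [], ⟨by simp, by simp⟩, by simp [wrdM]⟩
  | inl_mul a x ih =>
    obtain ⟨c, l, hl, rfl⟩ := ih
    refine ⟨a * c, l, hl, ?_⟩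
    cases l with
    | nil => simp [wrdM]
    | cons p l =>
      obtain ⟨n, d⟩ := p
      simp [wrdM, mul_assoc]
  | inr_mul k x ih =>
    obtain ⟨c, l, hl, rfl⟩ := ih
    exact wrdM_inr (Multiplicative.toAdd k) c l hl

/-- every element of `A * ⟨x⟩` is represented by a reduced word -/
theorem exists_reduced {A : Type} [Group A] (f : Monoid.Coprod A (Multiplicative ℤ)) :
    ∃ (c : A) (l : List (ℤ × A)), RedL l ∧ (∀ t : A, retr t f = evw t c l) ∧
      (l = [] → f = Monoid.Coprod.inl c) := by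
  obtain ⟨c, l, hl, rfl⟩ := exists_wrdM f
  refine ⟨c, l, hl, fun t => retr_wrdM t l c, ?_⟩
  rintro rfl
  rfl

theorem retr_map {A B : Type} [Group A] [Group B] (φ : A →* B) (t : A)
    (f : Monoid.Coprod A (Multiplicative ℤ)) :
    φ (retr t f) = retr (φ t) (Monoid.Coprod.map φ (MonoidHom.id (Multiplicative ℤ)) f) := by
  have h : φ.comp (retr t) = (retr (φ t)).comp
      (Monoid.Coprod.map φ (MonoidHom.id (Multiplicative ℤ))) := by
    apply Monoid.Coprod.hom_ext
    · ext a
      simp [retr]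
    · ext
      simp [retr]
  exact DFunLike.congr_fun h f

theorem MIF.congr {A B : Type} [Group A] [Group B] (e : A ≃* B) (h : MIF A) : MIF B := by
  classical
  intro F hF
  let ψ : Monoid.Coprod B (Multiplicative ℤ) →* Monoid.Coprod A (Multiplicative ℤ) :=
    Monoid.Coprod.map e.symm.toMonoidHom (MonoidHom.id (Multiplicative ℤ))
  let χ : Monoid.Coprod A (Multiplicative ℤ) →* Monoid.Coprod B (Multiplicative ℤ) :=
    Monoid.Coprod.map e.toMonoidHom (MonoidHom.id (Multiplicative ℤ))
  have hχψ : ∀ f, χ (ψ f) = f := by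
    intro f
    have h1 : χ.comp ψ = MonoidHom.id _ := by
      apply Monoid.Coprod.hom_ext
      · ext a
        simp [χ, ψ]
      · ext
        simp [χ, ψ]
    exact DFunLike.congr_fun h1 f
  obtain ⟨t, ht⟩ := h (F.image ψ) (by
    intro h1
    obtain ⟨f, hf, hf1⟩ := Finset.mem_image.1 h1
    apply hF
    have h2 := hχψ f
    rw [hf1, map_one] at h2
    rw [h2]
    exact hf)
  refine ⟨e t, ?_⟩
  intro f hf h1
  apply ht (ψ f) (Finset.mem_image_of_mem ψ hf)
  have h2 := retr_map e.toMonoidHom t (ψ f)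
  have h3 : Monoid.Coprod.map e.toMonoidHom (MonoidHom.id (Multiplicative ℤ)) (ψ f) = f := hχψ f
  rw [h3] at h2
  have h4 : e (retr t (ψ f)) = 1 := by
    have h5 : e.toMonoidHom t = e t := rfl
    rw [h5, h1] at h2
    exact h2
  exact (map_eq_one_iff e e.injective).1 h4

end Pool.Agent.Lib.MP_7e344a_al
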