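import Pool.Agent.Lib.MP_7e344a_al.Mg.G004
import Pool.Agent.Lib.MP_7e344a_al.M_Words

/-!
# MP_7e344a_al: M13, nonabelian torsion free hyperbolic groups are mixed identity free
-/

set_option autoImplicit false

namespace Pool.Agent.Lib.MP_7e344a_al

variable {A V : Type} [Group A] [MulAction A V] {Γ : SimpleGraph V} {δ : ℕ}

theorem mif_evw_append {A : Type} [Group A] (t c : A) (l : List (ℤ × A)) (n : ℤ) (d : A) :
    evw t c (l ++ [(n, d)]) = evw t c l * t ^ n * d := by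
  induction l generalizing c with
  | nil => rfl
  | cons p l ih =>
    obtain ⟨m, e⟩ := p
    show c * t ^ m * evw t e (l ++ [(n, d)]) = c * t ^ m * evw t e l * t ^ n * d
    rw [ih]
    group

theorem mif_evw_take {A : Type} [Group A] (t c : A) (l : List (ℤ × A)) (i : ℕ)
    (hi : i < l.length) :
    evw t c (l.take (i + 1)) = evw t c (l.take i) * t ^ (l[i].1) * l[i].2 := by
  rw [← mif_evw_append]
  congr 1
  rw [List.take_succ_eq_append_getElem hi]

theorem mif_unif {X : Type} (l : List X) (Q : X → ℕ → Prop)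
    (hm : ∀ a m n, m ≤ n → Q a m → Q a n) (h : ∀ a ∈ l, ∃ C, Q a C) : ∃ C, ∀ a ∈ l, Q a C := by
  induction l with
  | nil => exact ⟨0, by simp⟩
  | cons a l ih =>
    obtain ⟨C, hC⟩ := ih (fun b hb => h b (List.mem_cons_of_mem _ hb))
    obtain ⟨C', hC'⟩ := h a List.mem_cons_self
    refine ⟨C + C', fun b hb => ?_⟩
    rcases List.mem_cons.1 hb with rfl | hb
    · exact hm _ _ _ (by omega) hC'
    · exact hm _ _ _ (by omega) (hC b hb)

theorem mif_core (hA : Act A V Γ δ) {h : A} (h1 : h ≠ 1) (c : A) (l : List (ℤ × A))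
    (hl : ∀ p ∈ l, p.1 ≠ 0) (hne : l ≠ []) (hc : ∀ p ∈ l.dropLast, p.2 ∉ El h) :
    ∃ N₀ : ℕ, ∀ N ≥ N₀, evw (h ^ N) c l ≠ 1 := by
  obtain ⟨y⟩ := hA.conn.nonempty
  obtain ⟨κ, hκ⟩ : ∃ κ, κ = 6 * δ + 2 := ⟨_, rfl⟩
  have hF : FP Γ κ := hκ ▸ fp_of_slim hA.conn hA.slim
  obtain ⟨C, L, hL⟩ := hA.exists_lox h1 y
  -- constants
  obtain ⟨D, hD⟩ := mif_unif l (fun p D => Γ.dist y (p.2 • y) ≤ D)
    (fun a m n hmn hm => le_trans hm hmn) (fun a _ => ⟨_, le_rfl⟩)
  obtain ⟨Cu, hCu⟩ := mif_unif l.dropLast (fun p C => ∀ m n : ℤ,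
      Γ.dist y (h ^ m • y) + Γ.dist y ((p.2⁻¹ * h ^ n) • y) ≤
        Γ.dist (h ^ m • y) ((p.2⁻¹ * h ^ n) • y) + C)
    (fun a m n hmn hm m' n' => (hm m' n').trans (by omega))
    (fun p hp => gp_bounded hA hL (u := p.2⁻¹) (fun hmem => hc p hp (by
      simpa using (El h).inv_mem hmem)))
  obtain ⟨T, hT⟩ : ∃ T, T = Γ.dist (c • y) y + 1 := ⟨_, rfl⟩
  refine ⟨L * (Cu + 2 * D + 2 * κ + 1 + T + D + 1) + 1, fun N hN => ?_⟩
  set g : ℕ → A := fun i => evw (h ^ N) c (l.take i) with hg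
  have hgs : ∀ i (hi : i < l.length), g (i + 1) = g i * h ^ ((N : ℤ) * l[i].1) * l[i].2 := by
    intro i hi
    rw [hg]
    simp only
    rw [mif_evw_take _ _ _ _ hi, zpow_mul, zpow_natCast]
  -- long steps
  have hlong : ∀ i (hi : i < l.length),
      Cu + 2 * D + 2 * κ + 1 + T + D ≤ Γ.dist y (h ^ ((N : ℤ) * l[i].1) • y) := by
    intro i hi
    by_contra hcon
    have h2 := hL.grow_int hA ((N : ℤ) * l[i].1)
    have h3 : L * (Γ.dist y (h ^ ((N : ℤ) * l[i].1) • y) + 1) ≤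
        L * (Cu + 2 * D + 2 * κ + 1 + T + D + 1) := Nat.mul_le_mul_left _ (by omega)
    have h4 : N ≤ ((N : ℤ) * l[i].1).natAbs := by
      rw [Int.natAbs_mul, Int.natAbs_natCast]
      exact Nat.le_mul_of_pos_right _ (Int.natAbs_pos.2 (hl _ (List.getElem_mem hi)))
    omega
  -- end points
  have hend : ∀ i (hi : i < l.length) (z : V),
      Γ.dist (g i • z) (g (i + 1) • y) = Γ.dist z ((h ^ ((N : ℤ) * l[i].1) * l[i].2) • y) := by
    intro i hi z
    rw [hgs i hi, mul_assoc, mul_smul, dist_smul hA.act]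
  have hshift : ∀ i (hi : i < l.length),
      Γ.dist (h ^ ((N : ℤ) * l[i].1) • y) ((h ^ ((N : ℤ) * l[i].1) * l[i].2) • y) ≤ D := by
    intro i hi
    rw [mul_smul, dist_smul hA.act]
    exact hD _ (List.getElem_mem hi)
  have hstep : ∀ i (hi : i < l.length),
      Cu + 2 * D + 2 * κ + 1 + T ≤ Γ.dist (g i • y) (g (i + 1) • y) := by
    intro i hi
    rw [hend i hi]
    have h2 := hlong i hi
    have h3 := hshift i hi
    have h4 : Γ.dist y (h ^ ((N : ℤ) * l[i].1) • y) ≤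
      Γ.dist y ((h ^ ((N : ℤ) * l[i].1) * l[i].2) • y) +
        Γ.dist ((h ^ ((N : ℤ) * l[i].1) * l[i].2) • y) (h ^ ((N : ℤ) * l[i].1) • y) :=
      hA.conn.dist_triangle
    rw [SimpleGraph.dist_comm (v := h ^ ((N : ℤ) * l[i].1) • y) (u := _ • y)] at h4
    omega
  have hlocal : ∀ i, i < l.length - 1 →
      Γ.dist (g i • y) (g (i + 1) • y) + Γ.dist (g (i + 1) • y) (g (i + 2) • y) ≤
        Γ.dist (g i • y) (g (i + 2) • y) + (Cu + 2 * D) := by
    intro i hi
    have hi1 : i < l.length := by omega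
    have hi2 : i + 1 < l.length := by omega
    have hmem : l[i] ∈ l.dropLast := by
      have h2 : i < l.dropLast.length := by rw [List.length_dropLast]; exact hi
      have h3 := List.getElem_mem h2
      rwa [List.getElem_dropLast] at h3
    have h2 := hCu _ hmem ((N : ℤ) * l[i + 1].1) (-((N : ℤ) * l[i].1))
    have hback : g i • y = g (i + 1) • ((l[i].2⁻¹ * h ^ (-((N : ℤ) * l[i].1))) • y) := by
      rw [hgs i hi1, ← mul_smul]
      congr 1
      group
    have e1 : Γ.dist (g i • y) (g (i + 1) • y) =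
        Γ.dist y ((l[i].2⁻¹ * h ^ (-((N : ℤ) * l[i].1))) • y) := by
      conv_lhs => rw [hback]
      rw [dist_smul hA.act, SimpleGraph.dist_comm]
    have e2 := hend (i + 1) hi2 y
    have e3 : Γ.dist (g i • y) (g (i + 2) • y) =
        Γ.dist ((l[i].2⁻¹ * h ^ (-((N : ℤ) * l[i].1))) • y)
          ((h ^ ((N : ℤ) * l[i + 1].1) * l[i + 1].2) • y) := by
      conv_lhs => rw [hback]
      exact hend (i + 1) hi2 _
    have h3 := hshift (i + 1) hi2
    rw [show i + 1 + 1 = i + 2 from rfl] at e2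
    rw [e1, e2, e3]
    have t1 : Γ.dist y ((h ^ ((N : ℤ) * l[i + 1].1) * l[i + 1].2) • y) ≤
      Γ.dist y (h ^ ((N : ℤ) * l[i + 1].1) • y) + Γ.dist (h ^ ((N : ℤ) * l[i + 1].1) • y)
        ((h ^ ((N : ℤ) * l[i + 1].1) * l[i + 1].2) • y) := hA.conn.dist_triangle
    have t2 : Γ.dist (h ^ ((N : ℤ) * l[i + 1].1) • y)
        ((l[i].2⁻¹ * h ^ (-((N : ℤ) * l[i].1))) • y) ≤
      Γ.dist (h ^ ((N : ℤ) * l[i + 1].1) • y) ((h ^ ((N : ℤ) * l[i + 1].1) * l[i + 1].2) • y) +
      Γ.dist ((h ^ ((N : ℤ) * l[i + 1].1) * l[i + 1].2) • y)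
        ((l[i].2⁻¹ * h ^ (-((N : ℤ) * l[i].1))) • y) := hA.conn.dist_triangle
    rw [SimpleGraph.dist_comm (u := (l[i].2⁻¹ * h ^ (-((N : ℤ) * l[i].1))) • y)
      (v := (h ^ ((N : ℤ) * l[i + 1].1) * l[i + 1].2) • y)]
    omega
  have hA' := FourPt_claimA hF (y := fun i => g i • y) (n := l.length - 1) (C := Cu + 2 * D)
    hlocal (fun i hi => by
      have := hstep (i + 1) (by omega)
      simp only [show i + 1 + 1 = i + 2 from rfl] at this ⊢
      omega)
  have hpos : 0 < l.length := List.length_pos_of_ne_nil hne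
  have hfar : ∀ i, i < l.length → T ≤ Γ.dist (g 0 • y) (g (i + 1) • y) := by
    intro i
    induction i with
    | zero =>
      intro _
      have := hstep 0 hpos
      omega
    | succ i ih =>
      intro hi
      have h2 := ih (by omega)
      have h3 := hA' i (by omega)
      have h4 := hstep (i + 1) (by omega)
      simp only [show i + 1 + 1 = i + 2 from rfl] at h3 h4 ⊢
      omega
  have h2 := hfar (l.length - 1) (by omega)
  rw [Nat.sub_add_cancel hpos] at h2
  have e0 : g 0 = c := by simp [hg, evw]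
  have e1 : g l.length = evw (h ^ N) c l := by simp [hg]
  rw [e0, e1] at h2
  intro hcon
  rw [hcon, one_smul] at h2
  omega

theorem Hyp.mif {A : Type} [Group A] (hA : Hyp A) {a b : A} (hab : a * b ≠ b * a) : MIF A := by
  classical
  obtain ⟨V, _, Γ, δ, hAct⟩ := hA
  intro F hF
  choose c l hred hev hnil using fun f : Monoid.Coprod A (Multiplicative ℤ) => exists_reduced f
  obtain ⟨h, h1, hh⟩ := exists_avoid hAct hab
    (⋃ f ∈ (F : Set (Monoid.Coprod A (Multiplicative ℤ))), Prod.snd '' {p | p ∈ (l f).dropLast})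
    (Set.Finite.biUnion F.finite_toSet (fun f _ => (List.finite_toSet _).image _)) (by
      simp only [Set.mem_iUnion, Set.mem_image, not_exists]
      rintro f _ p ⟨hp, hp1⟩
      exact (hred f).2 p hp hp1)
  have key : ∀ f : Monoid.Coprod A (Multiplicative ℤ), ∃ N₀ : ℕ, f ∈ F → ∀ N ≥ N₀,
      retr (h ^ N) f ≠ 1 := by
    intro f
    by_cases hf : f ∈ F
    · by_cases hl : l f = []
      · refine ⟨0, fun _ N _ => ?_⟩
        rw [hev f, hl]
        intro hcon
        have : c f = 1 := hcon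
        have h2 := hnil f hl
        rw [this, map_one] at h2
        exact hF (h2 ▸ hf)
      · obtain ⟨N₀, hN₀⟩ := mif_core hAct h1 (c f) (l f) (hred f).1 hl (by
          intro p hp
          apply hh
          simp only [Set.mem_iUnion]
          exact ⟨f, hf, p, hp, rfl⟩)
        refine ⟨N₀, fun _ N hN => ?_⟩
        rw [hev f]
        exact hN₀ N hN
    · exact ⟨0, fun hf' => absurd hf' hf⟩
  choose N₀ hN₀ using key
  exact ⟨h ^ (F.sup N₀), fun f hf => hN₀ f hf _ (Finset.le_sup hf)⟩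

end Pool.Agent.Lib.MP_7e344a_al
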