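import Pool.Agent.Lib.MP_7e344a_al.Mg.G005
import Pool.Agent.Lib.MP_7e344a_al.Mg.G007

/-!
# MP_7e344a_al: final assembly
-/

set_option autoImplicit false

namespace Pool.Agent.Lib.MP_7e344a_al

theorem final_span_le {t₁ t₂ : Set (ℕ →₀ ZMod 2)}
    (h : Subgroup.closure (Multiplicative.toAdd ⁻¹' t₁ : Set (Multiplicative (ℕ →₀ ZMod 2))) ≤
      Subgroup.closure (Multiplicative.toAdd ⁻¹' t₂)) :
    Submodule.span (ZMod 2) t₁ ≤ Submodule.span (ZMod 2) t₂ := by
  rw [Submodule.span_le]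
  intro x hx
  have hx' : Multiplicative.ofAdd x ∈ Subgroup.closure
      (Multiplicative.toAdd ⁻¹' t₂ : Set (Multiplicative (ℕ →₀ ZMod 2))) :=
    h (Subgroup.subset_closure hx)
  have hle : Subgroup.closure
      (Multiplicative.toAdd ⁻¹' t₂ : Set (Multiplicative (ℕ →₀ ZMod 2))) ≤
      AddSubgroup.toSubgroup (Submodule.span (ZMod 2) t₂).toAddSubgroup := by
    rw [Subgroup.closure_le]
    intro y hy
    show Multiplicative.toAdd y ∈ Submodule.span (ZMod 2) t₂
    exact Submodule.subset_span hy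
  exact hle hx'

/-- a countable elementary abelian group of infinite special rank -/
theorem rank_inf {G : Type} [Group G] (k : Multiplicative (ℕ →₀ ZMod 2) →* G)
    (hk : Function.Injective k) : ¬ (∃ r : ℕ, ∀ H : Subgroup G, H.FG →
        ∃ s : Finset G, s.card ≤ r ∧ Subgroup.closure (s : Set G) = H) := by
  classical
  rintro ⟨r, hr⟩
  let e : ℕ → (ℕ →₀ ZMod 2) := fun i => Finsupp.single i 1
  let T : Finset (ℕ →₀ ZMod 2) := (Finset.range (r + 1)).image e
  have he : LinearIndependent (ZMod 2) e :=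
    Finsupp.linearIndependent_single_one (ZMod 2) ℕ
  have hTc : T.card = r + 1 := by
    rw [Finset.card_image_of_injective _ he.injective, Finset.card_range]
  have hTr : Module.finrank (ZMod 2) (Submodule.span (ZMod 2) (T : Set (ℕ →₀ ZMod 2))) = r + 1 := by
    have hli : LinearIndepOn (ZMod 2) id (T : Set (ℕ →₀ ZMod 2)) := by
      refine he.linearIndepOn_id.mono ?_
      intro x hx
      have hx' := Finset.mem_image.1 (Finset.mem_coe.1 hx)
      obtain ⟨i, -, rfl⟩ := hx'
      exact ⟨i, rfl⟩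
    have := finrank_span_finset_eq_card hli
    rw [this, hTc]
  let K : Subgroup (Multiplicative (ℕ →₀ ZMod 2)) :=
    Subgroup.closure (Multiplicative.toAdd ⁻¹' (T : Set (ℕ →₀ ZMod 2)))
  have hfin : (Multiplicative.toAdd ⁻¹' (T : Set (ℕ →₀ ZMod 2)) :
      Set (Multiplicative (ℕ →₀ ZMod 2))).Finite :=
    T.finite_toSet.preimage (Multiplicative.toAdd.injective.injOn)
  have hKfg : (K.map k).FG := by
    rw [Subgroup.fg_iff]
    exact ⟨_, (MonoidHom.map_closure k _).symm, hfin.image k⟩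
  obtain ⟨s, hs, hsK⟩ := hr _ hKfg
  have hsr : (s : Set G) ⊆ Set.range k := by
    intro x hx
    have : x ∈ K.map k := hsK ▸ Subgroup.subset_closure hx
    obtain ⟨y, -, rfl⟩ := this
    exact ⟨y, rfl⟩
  let s' : Finset (ℕ →₀ ZMod 2) := (s.preimage k hk.injOn).map Multiplicative.toAdd.toEmbedding
  have hs'c : s'.card ≤ r := by
    rw [Finset.card_map]
    refine le_trans ?_ hs
    exact Finset.card_le_card_of_injOn k (fun a ha => Finset.mem_preimage.1 ha) hk.injOn
  have hs'K : Subgroup.closure (Multiplicative.toAdd ⁻¹' (s' : Set (ℕ →₀ ZMod 2))) = K := by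
    have h1 : (Multiplicative.toAdd ⁻¹' (s' : Set (ℕ →₀ ZMod 2)) :
        Set (Multiplicative (ℕ →₀ ZMod 2))) = k ⁻¹' (s : Set G) := by
      ext x
      simp [s']
    rw [h1]
    apply Subgroup.map_injective hk
    rw [← hsK, MonoidHom.map_closure, Set.image_preimage_eq_of_subset hsr]
  have h2 : Submodule.span (ZMod 2) (T : Set (ℕ →₀ ZMod 2)) ≤
      Submodule.span (ZMod 2) (s' : Set (ℕ →₀ ZMod 2)) := final_span_le hs'K.ge
  have h3 : Module.finrank (ZMod 2) (Submodule.span (ZMod 2) (s' : Set (ℕ →₀ ZMod 2))) ≤ r :=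
    le_trans (finrank_span_finset_le_card s') hs'c
  have h4 := Submodule.finrank_mono h2
  omega

theorem rank_two {A G : Type} [Group A] [Group G] (i : A →* G) (hi : Function.Injective i)
    (hA : ∀ S : Finset A, ∃ a b : A, Subgroup.closure (S : Set A) = Subgroup.closure {a, b}) :
    ∃ r : ℕ, ∀ H : Subgroup G, H ≤ i.range → H.FG →
        ∃ s : Finset G, s.card ≤ r ∧ Subgroup.closure (s : Set G) = H := by
  classical
  refine ⟨2, fun H hH hfg => ?_⟩
  obtain ⟨S, hS⟩ := hfg
  obtain ⟨a, b, hab⟩ := hA (S.preimage i hi.injOn)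
  refine ⟨{i a, i b}, Finset.card_le_two, ?_⟩
  have hsr : (S : Set G) ⊆ Set.range i := by
    intro x hx
    have : x ∈ i.range := hH (hS ▸ Subgroup.subset_closure hx)
    exact this
  have h1 : (((S.preimage i hi.injOn : Finset A)) : Set A) = i ⁻¹' (S : Set G) := by
    ext x
    simp
  rw [h1] at hab
  have h2 := congrArg (Subgroup.map i) hab
  rw [MonoidHom.map_closure, MonoidHom.map_closure, Set.image_preimage_eq_of_subset hsr, hS,
    Set.image_pair] at h2
  rw [h2]
  simp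

theorem final : ∃ (G : Type) (_ : Group G) (A B : Subgroup G),
      (∃ r : ℕ, ∀ H : Subgroup G, H ≤ A → H.FG →
        ∃ s : Finset G, s.card ≤ r ∧ Subgroup.closure (s : Set G) = H) ∧
      (∃ r : ℕ, ∀ H : Subgroup G, H ≤ B → H.FG →
        ∃ s : Finset G, s.card ≤ r ∧ Subgroup.closure (s : Set G) = H) ∧
      (∀ g : G, ∃ a ∈ A, ∃ b ∈ B, a * b = g) ∧
      ¬ (∃ r : ℕ, ∀ H : Subgroup G, H.FG →
        ∃ s : Finset G, s.card ≤ r ∧ Subgroup.closure (s : Set G) = H) := by
  obtain ⟨A, _, hc, tA, mA, hA⟩ := monster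
  haveI : Countable (Multiplicative (ℕ →₀ ZMod 2)) := inferInstanceAs (Countable (ℕ →₀ ZMod 2))
  obtain ⟨G, _, i, j, k, hi, hj, hk, h⟩ := product_group A A (Multiplicative (ℕ →₀ ZMod 2)) tA tA
    mA mA
  refine ⟨G, inferInstance, i.range, j.range, rank_two i hi hA, rank_two j hj hA, fun g => ?_,
    rank_inf k hk⟩
  obtain ⟨a, b, hab⟩ := h g
  exact ⟨i a, ⟨a, rfl⟩, j b, ⟨b, rfl⟩, hab⟩

end Pool.Agent.Lib.MP_7e344a_al
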